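import Mathlib
import Pool.Agent.K4H74.ST.Main

/-!
# Characters induced from subgroups which contain a set of central involutions
-/

set_option autoImplicit false
set_option linter.unusedSectionVars false
set_option linter.unusedVariables false

namespace Pool.Agent.K4H94.ST

open Pool.Agent.R389 Pool.Agent.K4H74.ST

section cent

variable {G : Type} [Group G] [Finite G]

theorem ind_congr {H H' : Subgroup G} (h : H = H') {f : H → ℂ} {f' : H' → ℂ}
    (hf : ∀ (y : G) (hy : y ∈ H) (hy' : y ∈ H'), f ⟨y, hy⟩ = f' ⟨y, hy'⟩) :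
    ind H f = ind H' f' := by
  subst h
  congr 1
  funext y
  exact hf y y.2 y.2

/-- The group generated by the characters which are induced from linear characters of subgroups
that contain `X`. -/
def CC (X : Set G) : AddSubgroup (G → ℂ) :=
  AddSubgroup.closure {f | ∃ (U : Subgroup G) (ψ : U →* ℂˣ), (∀ c ∈ X, c ∈ U) ∧
    f = ind U (fun h => ((ψ h : ℂˣ) : ℂ))}

/-- The subgroup generated by `U` and the central involution `c`. -/
def adj (U : Subgroup G) (c : G) (hc2 : c * c = 1) (hc : ∀ g : G, g * c = c * g) : Subgroup G where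
  carrier := {g | g ∈ U ∨ g * c ∈ U}
  mul_mem' := by
    rintro a b (ha | ha) (hb | hb)
    · exact Or.inl (U.mul_mem ha hb)
    · refine Or.inr ?_
      have h := U.mul_mem ha hb
      rwa [← mul_assoc] at h
    · refine Or.inr ?_
      have h := U.mul_mem ha hb
      have h1 : a * c * b = a * b * c := by rw [mul_assoc, ← hc b, ← mul_assoc]
      rwa [h1] at h
    · refine Or.inl ?_
      have h := U.mul_mem ha hb
      have h1 : a * c * (b * c) = a * b := by
        rw [mul_assoc a c, ← mul_assoc c, ← hc b, mul_assoc b, hc2, mul_one]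
      rwa [h1] at h
  one_mem' := Or.inl U.one_mem
  inv_mem' := by
    rintro a (ha | ha)
    · exact Or.inl (U.inv_mem ha)
    · refine Or.inr ?_
      have h := U.inv_mem ha
      have h1 : (a * c)⁻¹ = a⁻¹ * c := by
        rw [mul_inv_rev, inv_eq_of_mul_eq_one_right hc2, hc]
      rwa [h1] at h

variable (U : Subgroup G) (c : G) (hc2 : c * c = 1) (hc : ∀ g : G, g * c = c * g)

theorem adj_mul (hcU : c ∉ U) {a b : G} (ha : a ∈ adj U c hc2 hc) (hb : b ∈ adj U c hc2 hc) :
    a * b ∈ U ↔ (a ∈ U ↔ b ∈ U) := by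
  constructor
  · intro h
    constructor
    · intro h1
      have h2 := U.mul_mem (U.inv_mem h1) h
      rwa [inv_mul_cancel_left] at h2
    · intro h1
      have h2 := U.mul_mem h (U.inv_mem h1)
      rwa [mul_inv_cancel_right] at h2
  · intro h
    by_cases h1 : a ∈ U
    · exact U.mul_mem h1 (h.1 h1)
    · have h2 : a * c ∈ U := ha.resolve_left h1
      have h3 : b * c ∈ U := hb.resolve_left (fun h3 => h1 (h.2 h3))
      have h4 := U.mul_mem h2 h3
      have h5 : a * c * (b * c) = a * b := by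
        rw [mul_assoc a c, ← mul_assoc c, ← hc b, mul_assoc b, hc2, mul_one]
      rwa [h5] at h4

open Classical in
/-- The sign character with kernel `U`. -/
noncomputable def sgn (hcU : c ∉ U) : adj U c hc2 hc →* ℂˣ where
  toFun g := if (g : G) ∈ U then 1 else -1
  map_one' := if_pos U.one_mem
  map_mul' := by
    intro a b
    have h := adj_mul U c hc2 hc hcU a.2 b.2
    change (if (a : G) * (b : G) ∈ U then (1 : ℂˣ) else -1) = _
    by_cases ha : (a : G) ∈ U <;> by_cases hb : (b : G) ∈ U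
    · rw [if_pos (h.2 (iff_of_true ha hb)), if_pos ha, if_pos hb, mul_one]
    · rw [if_neg (fun h1 => hb ((h.1 h1).1 ha)), if_pos ha, if_neg hb, one_mul]
    · rw [if_neg (fun h1 => ha ((h.1 h1).2 hb)), if_neg ha, if_pos hb, mul_one]
    · rw [if_pos (h.2 (iff_of_false ha hb)), if_neg ha, if_neg hb, neg_mul_neg, mul_one]

open Classical in
/-- The retraction to `U`. -/
noncomputable def ret (hcU : c ∉ U) : adj U c hc2 hc →* U where
  toFun g := if h : (g : G) ∈ U then ⟨g, h⟩ else ⟨g * c, g.2.resolve_left h⟩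
  map_one' := dif_pos U.one_mem
  map_mul' := by
    intro a b
    have h := adj_mul U c hc2 hc hcU a.2 b.2
    apply Subtype.ext
    change ((if h : (a : G) * (b : G) ∈ U then (⟨(a : G) * (b : G), h⟩ : U) else
      ⟨(a : G) * (b : G) * c, (a * b).2.resolve_left h⟩ : U) : G) = _
    by_cases ha : (a : G) ∈ U <;> by_cases hb : (b : G) ∈ U
    · rw [dif_pos (h.2 (iff_of_true ha hb)), dif_pos ha, dif_pos hb]
      rfl
    · rw [dif_neg (fun h1 => hb ((h.1 h1).1 ha)), dif_pos ha, dif_neg hb]
      change (a : G) * (b : G) * c = (a : G) * ((b : G) * c)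
      rw [mul_assoc]
    · rw [dif_neg (fun h1 => ha ((h.1 h1).2 hb)), dif_neg ha, dif_pos hb]
      change (a : G) * (b : G) * c = (a : G) * c * (b : G)
      rw [mul_assoc, mul_assoc, hc]
    · rw [dif_pos (h.2 (iff_of_false ha hb)), dif_neg ha, dif_neg hb]
      change (a : G) * (b : G) = (a : G) * c * ((b : G) * c)
      rw [mul_assoc (a : G) c, ← mul_assoc c, ← hc b, mul_assoc (b : G), hc2, mul_one]

theorem le_adj : U ≤ adj U c hc2 hc := fun g hg => Or.inl hg

theorem mem_adj : c ∈ adj U c hc2 hc := Or.inr (by rw [hc2]; exact U.one_mem)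

theorem ret_of_mem (hcU : c ∉ U) {g : adj U c hc2 hc} (hg : (g : G) ∈ U) :
    ret U c hc2 hc hcU g = ⟨g, hg⟩ := dif_pos hg

theorem step (hcU : c ∉ U) (ψ : U →* ℂˣ) :
    ind U (fun h => ((ψ h : ℂˣ) : ℂ)) =
      ind (adj U c hc2 hc) (fun h => (((ψ.comp (ret U c hc2 hc hcU)) h : ℂˣ) : ℂ)) +
      ind (adj U c hc2 hc) (fun h =>
        (((ψ.comp (ret U c hc2 hc hcU) * sgn U c hc2 hc hcU) h : ℂˣ) : ℂ)) := by
  classical
  have hs : Sg (sgn U c hc2 hc hcU) := by
    intro g
    by_cases h : (g : G) ∈ U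
    · exact Or.inl (if_pos h)
    · exact Or.inr (if_neg h)
  have ht : sgn U c hc2 hc hcU ⟨c, mem_adj U c hc2 hc⟩ = -1 := if_neg hcU
  have hker : ∀ g : adj U c hc2 hc, g ∈ (sgn U c hc2 hc hcU).ker ↔ (g : G) ∈ U := by
    intro g
    rw [MonoidHom.mem_ker]
    constructor
    · intro h
      by_contra h1
      have h2 : sgn U c hc2 hc hcU g = -1 := if_neg h1
      rw [h2] at h
      exact neg_one_ne h
    · exact fun h => if_pos h
  rw [← ind_add]
  have h1 : ((fun h => (((ψ.comp (ret U c hc2 hc hcU)) h : ℂˣ) : ℂ)) +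
      (fun h => (((ψ.comp (ret U c hc2 hc hcU) * sgn U c hc2 hc hcU) h : ℂˣ) : ℂ)) :
      adj U c hc2 hc → ℂ) = ind (sgn U c hc2 hc hcU).ker
        (fun h => lc (ψ.comp (ret U c hc2 hc hcU)) h) :=
    (ind_two' hs ht (ψ.comp (ret U c hc2 hc hcU))).symm
  rw [h1, ind_ind]
  refine ind_congr ?_ ?_
  · ext g
    constructor
    · intro hg
      exact ⟨⟨g, Or.inl hg⟩, (hker _).2 hg, rfl⟩
    · rintro ⟨g', hg', rfl⟩
      exact (hker _).1 hg'
  · intro y hy hy'
    obtain ⟨z, hz, hzy⟩ := id hy'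
    subst hzy
    have h2 : tr (adj U c hc2 hc) (sgn U c hc2 hc hcU).ker
        (fun h => lc (ψ.comp (ret U c hc2 hc hcU)) h) ⟨(adj U c hc2 hc).subtype z, hy'⟩ =
        lc (ψ.comp (ret U c hc2 hc hcU)) z := by
      unfold tr
      have h3 : ((sgn U c hc2 hc hcU).ker.equivMapOfInjective (adj U c hc2 hc).subtype
          (adj U c hc2 hc).subtype_injective) ⟨z, hz⟩ = ⟨(adj U c hc2 hc).subtype z, hy'⟩ := rfl
      rw [← h3, MulEquiv.symm_apply_apply]
    rw [h2]
    unfold lc
    change _ = ((ψ (ret U c hc2 hc hcU z) : ℂˣ) : ℂ)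
    rw [ret_of_mem U c hc2 hc hcU hy]
    rfl

/-- **Characters are integral combinations of characters which are induced from linear characters
of subgroups that contain a given set of central involutions.** -/
theorem central_span (X : Set G) (hX : ∀ c ∈ X, c * c = 1) (hc : ∀ c ∈ X, ∀ g : G, g * c = c * g)
    (χ : G → ℂ) (hχ : IsChar χ) :
    χ ∈ AddSubgroup.closure {f | ∃ (U : Subgroup G) (ψ : U →* ℂˣ), (∀ c ∈ X, c ∈ U) ∧
      f = ind U (fun h => ((ψ h : ℂˣ) : ℂ))} := by
  have key : ∀ (U : Subgroup G) (ψ : U →* ℂˣ), ind U (fun h => ((ψ h : ℂˣ) : ℂ)) ∈ CC X := by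
    intro U
    induction U using WellFoundedGT.induction with
    | ind U ih =>
      intro ψ
      by_cases h : ∀ c ∈ X, c ∈ U
      · exact AddSubgroup.subset_closure ⟨U, ψ, h, rfl⟩
      · push Not at h
        obtain ⟨c, hcX, hcU⟩ := h
        rw [step U c (hX c hcX) (hc c hcX) hcU ψ]
        have hlt : U < adj U c (hX c hcX) (hc c hcX) := by
          refine lt_of_le_of_ne (le_adj U c _ _) fun h => hcU ?_
          rw [h]
          exact mem_adj U c _ _
        exact add_mem (ih _ hlt _) (ih _ hlt _)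
  have h1 : MonG G ≤ CC X := by
    rw [MonG, AddSubgroup.closure_le]
    rintro f ⟨U, ψ, -, rfl⟩
    exact key U ψ
  exact h1 (virt_mem_mon hχ.virt)

end cent

section exp

variable {G : Type} [Group G] [Finite G]

/-- The pullback of a character is a character. -/
theorem isChar_comp {G H : Type} [Group G] [Group H] {χ : G → ℂ} (h : IsChar χ) (ρ : H →* G) :
    IsChar (fun x => χ (ρ x)) := by
  obtain ⟨V, h1, h2, h3, σ, rfl⟩ := h
  exact ⟨V, h1, h2, h3, MonoidHom.comp σ ρ, rfl⟩

/-- Characters of groups of exponent two are integral combinations of sign characters. -/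
theorem sg_span_range {A : Type} [Group A] [Finite A] (hA : ∀ a : A, a * a = 1) (χ : A → ℂ)
    (hχ : IsChar χ) : χ ∈ AddSubgroup.closure {f | ∃ s : A →* ℂˣ, Sg s ∧ f = lc s} := by
  have hcomm : ∀ a b : A, b * a = a * b := by
    intro a b
    have h1 : ∀ x : A, x⁻¹ = x := fun x => inv_eq_of_mul_eq_one_right (hA x)
    have h2 : (a * b)⁻¹ = a * b := h1 _
    rw [mul_inv_rev, h1, h1] at h2
    exact h2
  have h := central_span (Set.univ : Set A) (fun c _ => hA c) (fun c _ g => hcomm c g) χ hχ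
  refine (AddSubgroup.closure_le _).2 ?_ h
  rintro f ⟨U, ψ, hU, rfl⟩
  have hU' : U = ⊤ := (Subgroup.eq_top_iff' U).2 fun c => hU c (Set.mem_univ c)
  subst hU'
  let s : A →* ℂˣ := ψ.comp (Subgroup.topEquiv.symm.toMonoidHom)
  have hs : Sg s := by
    intro a
    have h1 : s a * s a = 1 := by rw [← map_mul, hA, map_one]
    have h2 : ((s a : ℂˣ) : ℂ) * ((s a : ℂˣ) : ℂ) = 1 := by
      rw [← Units.val_mul, h1, Units.val_one]
    rcases mul_self_eq_one_iff.1 h2 with h3 | h3
    · exact Or.inl (Units.ext h3)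
    · exact Or.inr (Units.ext (by rw [h3]; rfl))
  refine AddSubgroup.subset_closure ⟨s, hs, ?_⟩
  exact ind_top (lc s) (fun g x => lin_conj s g x)

/-- Characters of `G` pulled back along a homomorphism with values of order at most two are
integral combinations of sign characters. -/
theorem sg_span {U : Type} [Group U] (ρ : U →* G) (hρ : ∀ u, ρ u * ρ u = 1) (χ : G → ℂ)
    (hχ : IsChar χ) :
    (fun u => χ (ρ u)) ∈ AddSubgroup.closure {f : U → ℂ | ∃ s : U →* ℂˣ, Sg s ∧ f = lc s} := by
  have hA : ∀ a : ρ.range, a * a = 1 := by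
    rintro ⟨_, u, rfl⟩
    exact Subtype.ext (hρ u)
  have h := sg_span_range hA _ (isChar_comp hχ ρ.range.subtype)
  let m : (ρ.range → ℂ) →+ (U → ℂ) :=
    { toFun := fun f u => f (ρ.rangeRestrict u)
      map_zero' := rfl
      map_add' := fun _ _ => rfl }
  have h1 : AddSubgroup.closure {f : ρ.range → ℂ | ∃ s : ρ.range →* ℂˣ, Sg s ∧ f = lc s} ≤
      (AddSubgroup.closure {f : U → ℂ | ∃ s : U →* ℂˣ, Sg s ∧ f = lc s}).comap m := by
    rw [AddSubgroup.closure_le]
    rintro f ⟨s, hs, rfl⟩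
    exact AddSubgroup.subset_closure ⟨s.comp ρ.rangeRestrict, fun u => hs _, rfl⟩
  exact h1 h

end exp

end Pool.Agent.K4H94.ST
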